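import Pool.Agent.P8H96.RL.Stm

/-! # Project RL: FACT -/

set_option autoImplicit false

open Polynomial
open scoped NumberField

namespace Pool.Agent.P8H4.RL

open Pool.Agent.P8H96.RL

theorem aeval_neg_one_mul {k : Type} [Field k] [Algebra k ℂ] {p : k[X]} {z : ℂ}
    (h : aeval z p = 0) : aeval (-z) (p.scaleRoots (-1)) = 0 := by
  have h1 := scaleRoots_aeval_eq_zero (r := (-1 : k)) h
  rw [map_neg, map_one, neg_one_mul] at h1
  exact h1

/-- **FACT** -/
theorem fact : S_FACT := by
  intro k _ _ P P' hP hP' hI hI' σ z w hz hw hzw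
  let _ : Algebra k ℂ := σ.toAlgebra
  have hinj : Function.Injective (algebraMap (𝓞 k) k) :=
    NumberField.RingOfIntegers.coe_injective
  have ae : ∀ (Q : (𝓞 k)[X]) (x : ℂ), x ∈ zs σ Q → aeval x (Q.map (algebraMap (𝓞 k) k)) = 0 := by
    intro Q x hx
    have h1 : (Q.map (emb σ)).eval x = 0 := hx
    rw [aeval_def, eval₂_map]
    rw [eval_map] at h1
    exact h1
  have e1 : P.map (algebraMap (𝓞 k) k) = minpoly k z :=
    minpoly.eq_of_irreducible_of_monic hI (ae P z hz) (hP.map _)
  have e2 : P'.map (algebraMap (𝓞 k) k) = minpoly k w :=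
    minpoly.eq_of_irreducible_of_monic hI' (ae P' w hw) (hP'.map _)
  rcases sq_eq_sq_iff_eq_or_eq_neg.1 hzw with h | h
  · left
    apply map_injective _ hinj
    rw [e1, e2, h]
  · right
    have hw' : w = -z := by rw [h, neg_neg]
    apply map_injective _ hinj
    have h1 : (P.scaleRoots (-1)).map (algebraMap (𝓞 k) k) = (minpoly k z).scaleRoots (-1) := by
      rw [map_scaleRoots, e1, map_neg, map_one]
      rw [hP.leadingCoeff, map_one]
      exact one_ne_zero
    rw [e2, h1]
    have m1 : (minpoly k z).Monic := by rw [← e1]; exact hP.map _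
    have m2 : (minpoly k w).Monic := by rw [← e2]; exact hP'.map _
    have d1 : minpoly k w ∣ (minpoly k z).scaleRoots (-1) := by
      apply minpoly.dvd
      rw [hw']
      exact aeval_neg_one_mul (minpoly.aeval k z)
    have d2 : minpoly k z ∣ (minpoly k w).scaleRoots (-1) := by
      apply minpoly.dvd
      rw [h]
      exact aeval_neg_one_mul (minpoly.aeval k w)
    have m1' : ((minpoly k z).scaleRoots (-1)).Monic := (monic_scaleRoots_iff _).2 m1
    have m2' : ((minpoly k w).scaleRoots (-1)).Monic := (monic_scaleRoots_iff _).2 m2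
    refine (eq_of_monic_of_dvd_of_natDegree_le m2 m1' d1 ?_).symm
    have := natDegree_le_of_dvd d2 m2'.ne_zero
    rw [natDegree_scaleRoots] at this ⊢
    exact this

end Pool.Agent.P8H4.RL
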